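import Pool.Agent.H321R2.OB.Cov

set_option autoImplicit false

namespace Pool.Agent.H321R2.OB

open Finset

/-- `(2+o(1))^d` for odd covers. -/
theorem asymptotic (ε : ℝ) (hε : 0 < ε) : ∃ n₀ D : ℕ, ∀ n d : ℕ, Odd n → n₀ ≤ n → D ≤ d →
    ∃ N : ℕ, (N : ℝ) ≤ (2 + ε) ^ d ∧ HasOddCover n d N := by
  obtain ⟨K, hK⟩ := pow_unbounded_of_one_lt (2 : ℝ) (show (1 : ℝ) < 1 + ε / 2 by linarith)
  refine ⟨2 * K + 3, 2 * K, fun n d hn hn0 hd => ?_⟩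
  obtain ⟨N, hN, hc⟩ := upper hn (by omega) d
  refine ⟨N, ?_, hc⟩
  set q : ℝ := 1 + ε / 2 with hq
  have hq1 : (1 : ℝ) ≤ q := by rw [hq]; linarith
  set t := d / (n - 2) with ht
  have h1 : K * (t + 1) ≤ d := by
    have h2 : t ≤ d / (2 * K + 1) := Nat.div_le_div_left (by omega) (by omega)
    have h3 : (2 * K + 1) * (d / (2 * K + 1)) ≤ d := Nat.mul_div_le d _
    have h4 : 2 * (K * t) ≤ d := by nlinarith
    nlinarith
  have hNR : (N : ℝ) ≤ 2 ^ (d + t + 1) := by exact_mod_cast hN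
  calc (N : ℝ) ≤ 2 ^ (d + t + 1) := hNR
    _ = 2 ^ d * 2 ^ (t + 1) := by rw [← pow_add]; ring_nf
    _ ≤ 2 ^ d * (q ^ K) ^ (t + 1) :=
        mul_le_mul_of_nonneg_left (pow_le_pow_left₀ (by norm_num) hK.le _) (by positivity)
    _ = 2 ^ d * q ^ (K * (t + 1)) := by rw [← pow_mul]
    _ ≤ 2 ^ d * q ^ d := mul_le_mul_of_nonneg_left (pow_le_pow_right₀ hq1 h1) (by positivity)
    _ = (2 + ε) ^ d := by rw [← mul_pow, hq]; congr 1; ring

end Pool.Agent.H321R2.OB
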