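import Pool.Agent.H321R2.OB.Sep

set_option autoImplicit false

namespace Pool.Agent.H321R2.OB

open Finset

/-- There is a family of `N` odd proper boxes in `[n]^d` which covers every point an odd number of
times. -/
def HasOddCover (n d N : ℕ) : Prop :=
  ∃ P : Fin N → Fin d → Finset (Fin n), (∀ j i, Odd (P j i).card ∧ P j i ≠ univ) ∧
    ∀ x : Fin d → Fin n, Odd (univ.filter (fun j => ∀ i, x i ∈ P j i)).card

/-- Lower bound, over an arbitrary finite index set. -/
theorem lower_aux {n : ℕ} (hn : Odd n) (hn3 : 3 ≤ n) {ι : Type*} : ∀ (d : ℕ) (J : Finset ι)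
    (P : ι → Fin d → Finset (Fin n)),
    (∀ j ∈ J, ∀ i, Odd (P j i).card ∧ P j i ≠ univ) →
    (∀ x : Fin d → Fin n, Odd (J.filter (fun j => ∀ i, x i ∈ P j i)).card) →
    2 ^ (d + 1) - 1 ≤ J.card := by
  classical
  intro d
  induction d with
  | zero =>
    intro J P _ hcov
    have h := hcov (fun i => i.elim0)
    have h2 : J.filter (fun j => ∀ i : Fin 0, (fun i : Fin 0 => (i.elim0 : Fin n)) i ∈ P j i) = J := by
      apply Finset.filter_true_of_mem
      intro j _ i
      exact i.elim0
    rw [h2] at h
    have h3 := h.pos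
    calc 2 ^ (0 + 1) - 1 = 1 := by norm_num
      _ ≤ J.card := h3
  | succ d ih =>
    intro J P hP hcov
    -- for every test vector the hit sub-family is an odd cover in dimension d
    have hsub : ∀ r ∈ Tgen n, 2 ^ (d + 1) - 1 ≤ (J.filter (fun j => ∑ v ∈ P j 0, r v = 1)).card := by
      intro r hr
      have hrsum : ∑ v, r v = 1 := (Finset.mem_filter.mp (Finset.mem_of_mem_erase hr)).2
      apply ih _ (fun j i => P j i.succ)
      · intro j hj i
        exact hP j (Finset.mem_filter.mp hj).1 i.succ
      · intro x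
        rw [← ZMod.natCast_eq_one_iff_odd, Finset.filter_filter, Finset.card_filter]
        push_cast
        have e1 : ∀ j ∈ J, (if (∑ v ∈ P j 0, r v = 1) ∧ ∀ i : Fin d, x i ∈ P j i.succ then (1 : ZMod 2)
            else 0) = ∑ v, r v * (if ∀ i : Fin (d + 1), (Fin.cons v x : Fin (d + 1) → Fin n) i ∈ P j i
              then 1 else 0) := by
          intro j _
          have hall : ∀ v, (∀ i : Fin (d + 1), (Fin.cons v x : Fin (d + 1) → Fin n) i ∈ P j i) ↔
              (v ∈ P j 0 ∧ ∀ i : Fin d, x i ∈ P j i.succ) := by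
            intro v
            rw [Fin.forall_fin_succ]
            simp
          by_cases hx : ∀ i : Fin d, x i ∈ P j i.succ
          · have e2 : ∑ v, r v * (if ∀ i : Fin (d + 1), (Fin.cons v x : Fin (d + 1) → Fin n) i ∈ P j i
              then (1 : ZMod 2) else 0) = ∑ v ∈ P j 0, r v := by
              rw [← Finset.sum_filter_add_sum_filter_not univ (fun v => v ∈ P j 0)]
              have a1 : univ.filter (fun v => v ∈ P j 0) = P j 0 := by ext v; simp
              rw [a1]
              have a2 : ∑ v ∈ P j 0, r v * (if ∀ i : Fin (d + 1),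
                  (Fin.cons v x : Fin (d + 1) → Fin n) i ∈ P j i then (1 : ZMod 2) else 0)
                  = ∑ v ∈ P j 0, r v := by
                apply Finset.sum_congr rfl
                intro v hv
                rw [if_pos ((hall v).mpr ⟨hv, hx⟩), mul_one]
              have a3 : ∑ v ∈ univ.filter (fun v => ¬ v ∈ P j 0), r v * (if ∀ i : Fin (d + 1),
                  (Fin.cons v x : Fin (d + 1) → Fin n) i ∈ P j i then (1 : ZMod 2) else 0) = 0 := by
                apply Finset.sum_eq_zero
                intro v hv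
                rw [if_neg (fun h => (Finset.mem_filter.mp hv).2 ((hall v).mp h).1), mul_zero]
              rw [a2, a3, add_zero]
            rw [e2]
            have hz : ∀ z : ZMod 2, (if z = 1 ∧ True then (1 : ZMod 2) else 0) = z := by decide
            simp only [hx, implies_true, and_true]
            have hz' : ∀ z : ZMod 2, (if z = 1 then (1 : ZMod 2) else 0) = z := by decide
            exact hz' _
          · rw [if_neg (fun h => hx h.2)]
            symm
            apply Finset.sum_eq_zero
            intro v _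
            rw [if_neg (fun h => hx ((hall v).mp h).2), mul_zero]
        rw [Finset.sum_congr rfl e1, Finset.sum_comm]
        have e3 : ∀ v, ∑ j ∈ J, r v * (if ∀ i : Fin (d + 1),
            (Fin.cons v x : Fin (d + 1) → Fin n) i ∈ P j i then (1 : ZMod 2) else 0) = r v := by
          intro v
          rw [← Finset.mul_sum]
          have h := hcov (Fin.cons v x)
          rw [← ZMod.natCast_eq_one_iff_odd, Finset.card_filter] at h
          push_cast at h
          rw [h, mul_one]
        rw [Finset.sum_congr rfl (fun v _ => e3 v), hrsum]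
    have hcount : ∑ r ∈ Tgen n, (J.filter (fun j => ∑ v ∈ P j 0, r v = 1)).card
        = J.card * (2 ^ (n - 2) - 1) := by
      have : ∀ r ∈ Tgen n, (J.filter (fun j => ∑ v ∈ P j 0, r v = 1)).card
          = ∑ j ∈ J, (if ∑ v ∈ P j 0, r v = 1 then 1 else 0) := by
        intro r _
        rw [Finset.card_filter]
      rw [Finset.sum_congr rfl this, Finset.sum_comm]
      have h2 : ∀ j ∈ J, ∑ r ∈ Tgen n, (if ∑ v ∈ P j 0, r v = 1 then 1 else 0) = 2 ^ (n - 2) - 1 := by
        intro j hj
        rw [← Finset.card_filter]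
        exact Tgen_filter hn3 hn _ (hP j hj 0).1 (hP j hj 0).2
      rw [Finset.sum_congr rfl h2, Finset.sum_const, smul_eq_mul]
    have hge : (2 ^ (n - 1) - 1) * (2 ^ (d + 1) - 1) ≤ J.card * (2 ^ (n - 2) - 1) := by
      rw [← hcount, ← Tgen_card hn, ← smul_eq_mul, ← Finset.sum_const]
      exact Finset.sum_le_sum hsub
    -- arithmetic
    obtain ⟨m, hm⟩ : ∃ m, 2 ^ (n - 2) = m + 2 := by
      have : 2 ^ 1 ≤ 2 ^ (n - 2) := Nat.pow_le_pow_right (by norm_num) (by omega)
      exact ⟨2 ^ (n - 2) - 2, by omega⟩
    have hm2 : 2 ^ (n - 1) = 2 * (m + 2) := by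
      rw [← hm, ← pow_succ']; congr 1; omega
    obtain ⟨t, ht⟩ : ∃ t, 2 ^ (d + 1) = t + 2 := by
      have : 2 ^ 1 ≤ 2 ^ (d + 1) := Nat.pow_le_pow_right (by norm_num) (by omega)
      exact ⟨2 ^ (d + 1) - 2, by omega⟩
    have ht2 : 2 ^ (d + 1 + 1) = 2 * (t + 2) := by rw [pow_succ, ht]; ring
    rw [hm, hm2, ht] at hge
    rw [ht2]
    have g1 : 2 * (m + 2) - 1 = 2 * m + 3 := by omega
    have g2 : t + 2 - 1 = t + 1 := by omega
    have g3 : m + 2 - 1 = m + 1 := by omega
    rw [g1, g2, g3] at hge
    by_contra hcon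
    push Not at hcon
    have hJ : J.card ≤ 2 * t + 2 := by omega
    have : J.card * (m + 1) ≤ (2 * t + 2) * (m + 1) := Nat.mul_le_mul_right _ hJ
    nlinarith

theorem lower {n d N : ℕ} (hn : Odd n) (hn3 : 3 ≤ n) (h : HasOddCover n d N) :
    2 ^ (d + 1) - 1 ≤ N := by
  obtain ⟨P, hP, hcov⟩ := h
  have := lower_aux hn hn3 d (univ : Finset (Fin N)) P (fun j _ i => hP j i) hcov
  simpa using this

/-- The vectors `λ(v)` of the construction: a basis of `F_2^(d+1)`, the sum of the basis, and zeros. -/
def lam (n d : ℕ) (v : Fin n) (k : Fin (d + 1)) : ZMod 2 :=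
  if (v : ℕ) = k then 1 else if (v : ℕ) = d + 1 then 1 else 0

/-- the linear form `λ(v)·b` -/
def form (n d : ℕ) (b : Fin (d + 1) → ZMod 2) (v : Fin n) : ZMod 2 := ∑ k, lam n d v k * b k

lemma form_basis (n d : ℕ) (b : Fin (d + 1) → ZMod 2) (v : Fin n) (hv : (v : ℕ) < d + 1) :
    form n d b v = b ⟨v, hv⟩ := by
  unfold form lam
  rw [Finset.sum_eq_single (⟨v, hv⟩ : Fin (d + 1))]
  · simp
  · intro k _ hk
    have h1 : ¬ ((v : ℕ) = k) := by
      intro h
      apply hk
      ext
      simp [h]
    have h2 : ¬ ((v : ℕ) = d + 1) := by omega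
    simp [h1, h2]
  · intro h; exact absurd (Finset.mem_univ _) h

lemma form_last (n d : ℕ) (b : Fin (d + 1) → ZMod 2) (v : Fin n) (hv : (v : ℕ) = d + 1) :
    form n d b v = ∑ k, b k := by
  unfold form lam
  apply Finset.sum_congr rfl
  intro k _
  have h1 : ¬ ((v : ℕ) = k) := by
    intro h
    have := k.2
    omega
  simp [hv]

lemma form_big (n d : ℕ) (b : Fin (d + 1) → ZMod 2) (v : Fin n) (hv : d + 1 < (v : ℕ)) :
    form n d b v = 0 := by
  unfold form lam
  apply Finset.sum_eq_zero
  intro k _
  have h1 : ¬ ((v : ℕ) = k) := by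
    intro h
    have := k.2
    omega
  have h2 : ¬ ((v : ℕ) = d + 1) := by omega
  simp [h1, h2]

lemma form_add (n d : ℕ) (b e : Fin (d + 1) → ZMod 2) (v : Fin n) :
    form n d (b + e) v = form n d b v + form n d e v := by
  unfold form
  simp only [Pi.add_apply, mul_add, Finset.sum_add_distrib]

lemma form_sum (n d : ℕ) (hnd : d + 2 ≤ n) (b : Fin (d + 1) → ZMod 2) :
    ∑ v : Fin n, form n d b v = 0 := by
  classical
  -- split the sum over `Fin n` as a sum over `range n`
  have h1 : ∑ v : Fin n, form n d b v
      = ∑ m ∈ Finset.range n, (if h : m < n then form n d b ⟨m, h⟩ else 0) := by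
    rw [← Fin.sum_univ_eq_sum_range (fun m => if h : m < n then form n d b ⟨m, h⟩ else 0) n]
    apply Finset.sum_congr rfl
    intro v _
    simp
  obtain ⟨m, rfl⟩ : ∃ m, n = (d + 2) + m := ⟨n - (d + 2), by omega⟩
  rw [h1, Finset.sum_range_add, Finset.sum_range_succ]
  have h2 : ∑ x ∈ Finset.range m, (if h : d + 2 + x < d + 2 + m then
      form (d + 2 + m) d b ⟨d + 2 + x, h⟩ else 0) = 0 := by
    apply Finset.sum_eq_zero
    intro x hx
    have hx' := Finset.mem_range.mp hx
    rw [dif_pos (by omega)]
    exact form_big _ _ _ _ (by simp; omega)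
  have h3 : (if h : d + 1 < d + 2 + m then form (d + 2 + m) d b ⟨d + 1, h⟩ else 0) = ∑ k, b k := by
    rw [dif_pos (by omega)]
    exact form_last _ _ _ _ rfl
  have h4 : ∑ x ∈ Finset.range (d + 1), (if h : x < d + 2 + m then
      form (d + 2 + m) d b ⟨x, h⟩ else 0) = ∑ k, b k := by
    rw [Finset.sum_range]
    apply Finset.sum_congr rfl
    intro k _
    have hk := k.2
    rw [dif_pos (by omega)]
    exact form_basis _ _ _ _ hk
  rw [h2, h3, h4, add_zero]
  exact CharTwo.add_self_eq_zero _

/-- The projective geometry construction. -/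
theorem construction {n d : ℕ} (hn : Odd n) (hnd : d + 2 ≤ n) :
    HasOddCover n d (2 ^ (d + 1) - 1) := by
  classical
  have hcard : Fintype.card {b : Fin (d + 1) → ZMod 2 // b ≠ 0} = 2 ^ (d + 1) - 1 := by
    rw [Fintype.card_subtype_compl, Fintype.card_fun, ZMod.card, Fintype.card_fin]
    simp
  let e : Fin (2 ^ (d + 1) - 1) ≃ {b : Fin (d + 1) → ZMod 2 // b ≠ 0} :=
    (Fintype.equivFinOfCardEq hcard).symm
  refine ⟨fun j _ => univ.filter (fun v => form n d (e j).1 v = 0), ?_, ?_⟩
  · intro j i
    refine ⟨?_, ?_⟩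
    · rw [← ZMod.natCast_eq_one_iff_odd, Finset.card_filter]
      push_cast
      have h1 : ∀ v : Fin n, (if form n d (e j).1 v = 0 then (1 : ZMod 2) else 0)
          = 1 + form n d (e j).1 v := by
        intro v
        have : ∀ z : ZMod 2, (if z = 0 then (1 : ZMod 2) else 0) = 1 + z := by decide
        exact this _
      rw [Finset.sum_congr rfl (fun v _ => h1 v), Finset.sum_add_distrib, form_sum n d hnd,
        add_zero, Finset.sum_const, Finset.card_univ, Fintype.card_fin, nsmul_eq_mul, mul_one]
      exact ZMod.natCast_eq_one_iff_odd.mpr hn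
    · intro h
      apply (e j).2
      funext k
      have hk : (k : ℕ) < n := by have := k.2; omega
      have h' : (univ : Finset (Fin n)).filter (fun v => form n d (e j).1 v = 0) = univ := h
      have h2 : (⟨k, hk⟩ : Fin n) ∈ univ.filter (fun v => form n d (e j).1 v = 0) := by
        rw [h']; exact Finset.mem_univ _
      have h3 := (Finset.mem_filter.mp h2).2
      rw [form_basis n d _ _ k.2] at h3
      exact h3
  · intro x
    -- all `b` (including zero) whose box contains `x`
    set A : Finset (Fin (d + 1) → ZMod 2) := univ.filter (fun b => ∀ i, form n d b (x i) = 0) with hA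
    have h0 : (0 : Fin (d + 1) → ZMod 2) ∈ A := by
      refine Finset.mem_filter.mpr ⟨Finset.mem_univ _, fun i => ?_⟩
      unfold form; simp
    -- a nonzero vector in the kernel
    obtain ⟨e0, he0, hne⟩ : ∃ e0 : Fin (d + 1) → ZMod 2, (∀ i, form n d e0 (x i) = 0) ∧ e0 ≠ 0 := by
      have hlt : Fintype.card (Fin d → ZMod 2) < Fintype.card (Fin (d + 1) → ZMod 2) := by
        rw [Fintype.card_fun, Fintype.card_fun, ZMod.card, Fintype.card_fin, Fintype.card_fin]
        exact Nat.pow_lt_pow_right (by norm_num) (by omega)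
      obtain ⟨b, b', hbb, hmap⟩ := Fintype.exists_ne_map_eq_of_card_lt
        (fun b : Fin (d + 1) → ZMod 2 => (fun i : Fin d => form n d b (x i))) hlt
      refine ⟨b + b', ?_, ?_⟩
      · intro i
        rw [form_add]
        have h5 : form n d b (x i) = form n d b' (x i) := congrFun hmap i
        rw [h5]
        exact CharTwo.add_self_eq_zero _
      · intro h
        apply hbb
        funext k
        have := congrFun h k
        simp only [Pi.add_apply, Pi.zero_apply] at this
        have hz : ∀ y z : ZMod 2, y + z = 0 → y = z := by decide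
        exact hz _ _ this
    have hAeven : ((A.card : ℕ) : ZMod 2) = 0 := by
      rw [Finset.card_eq_sum_ones]
      push_cast
      apply Finset.sum_involution (fun b _ => b + e0)
      · intro b _; decide
      · intro b _ _ hb
        apply hne
        have : b + e0 = b + 0 := by rw [add_zero]; exact hb
        exact add_left_cancel this
      · intro b hb
        refine Finset.mem_filter.mpr ⟨Finset.mem_univ _, fun i => ?_⟩
        rw [form_add, (Finset.mem_filter.mp hb).2 i, he0 i, add_zero]
      · intro b _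
        funext v
        simp only [Pi.add_apply, add_assoc, CharTwo.add_self_eq_zero, add_zero]
    have hcardA : (A.erase 0).card + 1 = A.card := Finset.card_erase_add_one h0
    have hodd : Odd (A.erase 0).card := by
      rw [← ZMod.natCast_eq_one_iff_odd]
      rw [← hcardA] at hAeven
      push_cast at hAeven
      have hz : ∀ y : ZMod 2, y + 1 = 0 → y = 1 := by decide
      exact hz _ hAeven
    have hbij : (univ.filter (fun j => ∀ i, x i ∈
        (fun (j : Fin (2 ^ (d + 1) - 1)) (_ : Fin d) =>
          univ.filter (fun v => form n d (e j).1 v = 0)) j i)).card = (A.erase 0).card := by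
      apply Finset.card_bij (fun j _ => (e j).1)
      · intro j hj
        refine Finset.mem_erase.mpr ⟨(e j).2, Finset.mem_filter.mpr ⟨Finset.mem_univ _, fun i => ?_⟩⟩
        exact (Finset.mem_filter.mp ((Finset.mem_filter.mp hj).2 i)).2
      · intro j _ j' _ h
        exact e.injective (Subtype.ext h)
      · intro b hb
        refine ⟨e.symm ⟨b, (Finset.mem_erase.mp hb).1⟩, ?_, by simp⟩
        refine Finset.mem_filter.mpr ⟨Finset.mem_univ _, fun i => ?_⟩
        refine Finset.mem_filter.mpr ⟨Finset.mem_univ _, ?_⟩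
        rw [Equiv.apply_symm_apply]
        exact (Finset.mem_filter.mp (Finset.mem_erase.mp hb).2).2 i
    rw [hbij]
    exact hodd

/-- Odd covers multiply. -/
theorem HasOddCover.mul {n d1 d2 N1 N2 : ℕ} (h1 : HasOddCover n d1 N1) (h2 : HasOddCover n d2 N2) :
    HasOddCover n (d1 + d2) (N1 * N2) := by
  classical
  obtain ⟨P, hP, hPc⟩ := h1
  obtain ⟨Q, hQ, hQc⟩ := h2
  let e : Fin (N1 * N2) ≃ Fin N1 × Fin N2 := finProdFinEquiv.symm
  refine ⟨fun j => Fin.addCases (fun i => P (e j).1 i) (fun i => Q (e j).2 i), ?_, ?_⟩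
  · intro j i
    refine Fin.addCases (fun i => ?_) (fun i => ?_) i
    · simp only [Fin.addCases_left]; exact hP _ _
    · simp only [Fin.addCases_right]; exact hQ _ _
  · intro x
    have hb : (univ.filter (fun j => ∀ i, x i ∈
        (fun j : Fin (N1 * N2) => (Fin.addCases (fun i => P (e j).1 i) (fun i => Q (e j).2 i) :
          Fin (d1 + d2) → Finset (Fin n))) j i)).card
        = (univ.filter (fun j => ∀ i, x (Fin.castAdd d2 i) ∈ P j i)).card *
          (univ.filter (fun j => ∀ i, x (Fin.natAdd d1 i) ∈ Q j i)).card := by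
      rw [← Finset.card_product]
      apply Finset.card_bij (fun j _ => e j)
      · intro j hj
        have hj' := (Finset.mem_filter.mp hj).2
        refine Finset.mem_product.mpr ⟨Finset.mem_filter.mpr ⟨Finset.mem_univ _, fun i => ?_⟩,
          Finset.mem_filter.mpr ⟨Finset.mem_univ _, fun i => ?_⟩⟩
        · have := hj' (Fin.castAdd d2 i)
          simpa only [Fin.addCases_left] using this
        · have := hj' (Fin.natAdd d1 i)
          simpa only [Fin.addCases_right] using this
      · intro j _ j' _ h
        exact e.injective h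
      · intro p hp
        obtain ⟨hp1, hp2⟩ := Finset.mem_product.mp hp
        refine ⟨e.symm p, Finset.mem_filter.mpr ⟨Finset.mem_univ _, fun i => ?_⟩, by simp⟩
        refine Fin.addCases (fun i => ?_) (fun i => ?_) i
        · simp only [Fin.addCases_left, Equiv.apply_symm_apply]
          exact (Finset.mem_filter.mp hp1).2 i
        · simp only [Fin.addCases_right, Equiv.apply_symm_apply]
          exact (Finset.mem_filter.mp hp2).2 i
    rw [hb]
    exact (hPc _).mul (hQc _)

/-- Powers. -/
theorem power_cover {n k : ℕ} (hn : Odd n) (hk : k + 2 ≤ n) :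
    ∀ q : ℕ, HasOddCover n (q * k) ((2 ^ (k + 1) - 1) ^ q) := by
  intro q
  induction q with
  | zero =>
    have h := construction (n := n) (d := 0) hn (by omega)
    simpa using h
  | succ q ih =>
    have h := ih.mul (construction hn hk)
    rw [pow_succ, Nat.succ_mul]
    exact h

/-- Upper bound for all dimensions. -/
theorem upper {n : ℕ} (hn : Odd n) (hn3 : 3 ≤ n) (d : ℕ) :
    ∃ N, N ≤ 2 ^ (d + d / (n - 2) + 1) ∧ HasOddCover n d N := by
  set k := n - 2 with hk
  have hk0 : 0 < k := by omega
  have h1 := power_cover (n := n) (k := k) hn (by omega) (d / k)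
  have h2 := construction (n := n) (d := d % k) hn (by
    have := Nat.mod_lt d hk0
    omega)
  have h3 := h1.mul h2
  have hd : d / k * k + d % k = d := by
    have := Nat.div_add_mod d k
    rw [mul_comm]; exact this
  rw [hd] at h3
  refine ⟨_, ?_, h3⟩
  calc (2 ^ (k + 1) - 1) ^ (d / k) * (2 ^ (d % k + 1) - 1)
      ≤ (2 ^ (k + 1)) ^ (d / k) * 2 ^ (d % k + 1) :=
        Nat.mul_le_mul (Nat.pow_le_pow_left (Nat.sub_le _ _) _) (Nat.sub_le _ _)
    _ = 2 ^ (d + d / k + 1) := by
        rw [← pow_mul, ← pow_add]
        congr 1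
        calc (k + 1) * (d / k) + (d % k + 1) = (d / k * k + d % k) + d / k + 1 := by ring
          _ = d + d / k + 1 := by rw [hd]

end Pool.Agent.H321R2.OB
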