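import Mathlib

set_option autoImplicit false

namespace Pool.Agent.H321R2.OB

open Finset

/-- General weighting lemma.  `T i` is a finite set of vectors `r : Fin n → ZMod 2` with coordinate sum `1`;
then `∏ |T i|` is at most the sum over the boxes of the products of the numbers of vectors which hit the sides. -/
theorem weighting {n d N : ℕ} (P : Fin N → Fin d → Finset (Fin n))
    (hcov : ∀ x : Fin d → Fin n, Odd (univ.filter (fun j => ∀ i, x i ∈ P j i)).card)
    (T : Fin d → Finset (Fin n → ZMod 2)) (hT : ∀ i, ∀ r ∈ T i, ∑ v, r v = 1)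
    (c : Fin N → Fin d → ℕ)
    (hc : ∀ j i, ((T i).filter (fun r => ∑ v ∈ P j i, r v = 1)).card ≤ c j i) :
    ∏ i, (T i).card ≤ ∑ j, ∏ i, c j i := by
  classical
  -- every choice of test vectors is hit by some box
  have key : ∀ r ∈ Fintype.piFinset T, ∃ j, ∀ i, ∑ v ∈ P j i, r i v = 1 := by
    intro r hr
    rw [Fintype.mem_piFinset] at hr
    by_contra hcon
    push Not at hcon
    have hz : ∀ j, ∏ i, ∑ v ∈ P j i, r i v = 0 := by
      intro j
      obtain ⟨i, hi⟩ := hcon j
      apply Finset.prod_eq_zero (Finset.mem_univ i)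
      have : ∀ z : ZMod 2, z ≠ 1 → z = 0 := by decide
      exact this _ hi
    have h1 : ∑ j, ∏ i, ∑ v ∈ P j i, r i v = 1 := by
      have e1 : ∀ j, ∏ i, ∑ v ∈ P j i, r i v
          = ∑ x : Fin d → Fin n, if (∀ i, x i ∈ P j i) then ∏ i, r i (x i) else 0 := by
        intro j
        rw [Finset.prod_univ_sum]
        rw [← Finset.sum_filter]
        apply Finset.sum_congr _ (fun _ _ => rfl)
        ext x
        simp [Fintype.mem_piFinset]
      rw [Finset.sum_congr rfl (fun j _ => e1 j), Finset.sum_comm]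
      have e2 : ∀ x : Fin d → Fin n,
          ∑ j, (if (∀ i, x i ∈ P j i) then ∏ i, r i (x i) else 0) = ∏ i, r i (x i) := by
        intro x
        rw [← Finset.sum_filter, Finset.sum_const, nsmul_eq_mul]
        have : ((univ.filter (fun j => ∀ i, x i ∈ P j i)).card : ZMod 2) = 1 := by
          have := hcov x
          exact (ZMod.natCast_eq_one_iff_odd).mpr this
        rw [this, one_mul]
      rw [Finset.sum_congr rfl (fun x _ => e2 x)]
      rw [← Fintype.piFinset_univ, ← Finset.prod_univ_sum]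
      exact Finset.prod_eq_one (fun i _ => hT i _ (hr i))
    rw [Finset.sum_congr rfl (fun j _ => hz j)] at h1
    simp at h1
  have hsub : Fintype.piFinset T ⊆ (univ : Finset (Fin N)).biUnion
      (fun j => Fintype.piFinset (fun i => (T i).filter (fun r => ∑ v ∈ P j i, r v = 1))) := by
    intro r hr
    obtain ⟨j, hj⟩ := key r hr
    rw [Finset.mem_biUnion]
    refine ⟨j, Finset.mem_univ _, ?_⟩
    rw [Fintype.mem_piFinset] at hr ⊢
    intro i
    exact Finset.mem_filter.mpr ⟨hr i, hj i⟩
  calc ∏ i, (T i).card = (Fintype.piFinset T).card := (Fintype.card_piFinset T).symm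
    _ ≤ _ := Finset.card_le_card hsub
    _ ≤ ∑ j : Fin N, (Fintype.piFinset
          (fun i => (T i).filter (fun r => ∑ v ∈ P j i, r v = 1))).card := Finset.card_biUnion_le
    _ = ∑ j : Fin N, ∏ i, ((T i).filter (fun r => ∑ v ∈ P j i, r v = 1)).card := by
        simp only [Fintype.card_piFinset]
    _ ≤ ∑ j : Fin N, ∏ i, c j i :=
        Finset.sum_le_sum (fun j _ => Finset.prod_le_prod' (fun i _ => hc j i))

lemma toggle {n : ℕ} (Q : Finset (Fin n → ZMod 2)) (B : Finset (Fin n)) (e : Fin n → ZMod 2)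
    (he : ∑ v ∈ B, e v = 1) (hQ : ∀ r ∈ Q, r + e ∈ Q) :
    2 * (Q.filter (fun r => ∑ v ∈ B, r v = 1)).card = Q.card := by
  classical
  have hee : ∀ r : Fin n → ZMod 2, r + e + e = r := by
    intro r
    funext v
    simp only [Pi.add_apply, add_assoc, CharTwo.add_self_eq_zero, add_zero]
  have hsum : ∀ r : Fin n → ZMod 2, ∑ v ∈ B, (r + e) v = (∑ v ∈ B, r v) + 1 := by
    intro r
    simp only [Pi.add_apply, Finset.sum_add_distrib, he]
  have hcases : ∀ z : ZMod 2, (z + 1 = 1 ↔ ¬ z = 1) := by decide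
  have hb : (Q.filter (fun r => ∑ v ∈ B, r v = 1)).card
      = (Q.filter (fun r => ¬ ∑ v ∈ B, r v = 1)).card := by
    apply Finset.card_nbij' (fun r => r + e) (fun r => r + e)
    · intro r hr
      have hr' := Finset.mem_filter.mp hr
      apply Finset.mem_coe.mpr
      refine Finset.mem_filter.mpr ⟨hQ r hr'.1, ?_⟩
      rw [hsum, hr'.2]; decide
    · intro r hr
      have hr' := Finset.mem_filter.mp hr
      apply Finset.mem_coe.mpr
      refine Finset.mem_filter.mpr ⟨hQ r hr'.1, ?_⟩
      rw [hsum, hcases]; exact hr'.2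
    · intro r _; exact hee r
    · intro r _; exact hee r
  have := Finset.card_filter_add_card_filter_not (s := Q) (fun r => ∑ v ∈ B, r v = 1)
  omega

lemma card_Q {n : ℕ} (hn : 0 < n) :
    ((univ : Finset (Fin n → ZMod 2)).filter (fun r => ∑ v, r v = 1)).card = 2 ^ (n - 1) := by
  classical
  have h := toggle (univ : Finset (Fin n → ZMod 2)) univ (Pi.single ⟨0, hn⟩ 1) (by simp)
    (fun _ _ => Finset.mem_univ _)
  rw [Finset.card_univ, Fintype.card_fun, ZMod.card, Fintype.card_fin] at h
  have h2 : 2 ^ n = 2 * 2 ^ (n - 1) := by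
    rw [← pow_succ']; congr 1; omega
  omega

lemma card_QB {n : ℕ} (hn : 2 ≤ n) (B : Finset (Fin n)) (hB : B.Nonempty) (hB' : B ≠ univ) :
    (((univ : Finset (Fin n → ZMod 2)).filter (fun r => ∑ v, r v = 1)).filter
      (fun r => ∑ v ∈ B, r v = 1)).card = 2 ^ (n - 2) := by
  classical
  obtain ⟨u, hu⟩ := hB
  obtain ⟨w, hw⟩ : ∃ w, w ∉ B := by
    by_contra hcon
    push Not at hcon
    exact hB' (Finset.eq_univ_iff_forall.mpr hcon)
  have h := toggle ((univ : Finset (Fin n → ZMod 2)).filter (fun r => ∑ v, r v = 1)) B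
    (Pi.single u 1 + Pi.single w 1) (by
      simp only [Pi.add_apply, Finset.sum_add_distrib, Finset.sum_pi_single', hu, hw, if_true,
        if_false, add_zero]) (by
      intro r hr
      have hr' := (Finset.mem_filter.mp hr).2
      refine Finset.mem_filter.mpr ⟨Finset.mem_univ _, ?_⟩
      simp only [Pi.add_apply, Finset.sum_add_distrib, Finset.sum_pi_single', Finset.mem_univ,
        if_true, hr']
      decide)
  rw [card_Q (by omega)] at h
  have h2 : 2 ^ (n - 1) = 2 * 2 ^ (n - 2) := by
    rw [← pow_succ']; congr 1; omega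
  omega

/-- the test vectors for a general coordinate: all vectors of coordinate sum `1` except `1`. -/
noncomputable def Tgen (n : ℕ) : Finset (Fin n → ZMod 2) :=
  ((univ : Finset (Fin n → ZMod 2)).filter (fun r => ∑ v, r v = 1)).erase (fun _ => 1)

/-- the test vectors for a separated pair. -/
noncomputable def Tsep {n : ℕ} (a b : Fin n) : Finset (Fin n → ZMod 2) :=
  {Pi.single a 1, Pi.single b 1, (fun _ => 1) + Pi.single a 1 + Pi.single b 1}

lemma Tgen_card {n : ℕ} (hn : Odd n) : (Tgen n).card = 2 ^ (n - 1) - 1 := by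
  unfold Tgen
  rw [Finset.card_erase_of_mem, card_Q hn.pos]
  refine Finset.mem_filter.mpr ⟨Finset.mem_univ _, ?_⟩
  simp only [Finset.sum_const, Finset.card_univ, Fintype.card_fin, nsmul_eq_mul, mul_one]
  exact (ZMod.natCast_eq_one_iff_odd).mpr hn

lemma Tgen_filter {n : ℕ} (hn3 : 3 ≤ n) (hn : Odd n) (B : Finset (Fin n)) (hodd : Odd B.card)
    (hB' : B ≠ univ) :
    ((Tgen n).filter (fun r => ∑ v ∈ B, r v = 1)).card = 2 ^ (n - 2) - 1 := by
  classical
  unfold Tgen
  rw [Finset.filter_erase, Finset.card_erase_of_mem, card_QB (by omega) B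
    (Finset.card_pos.mp hodd.pos) hB']
  refine Finset.mem_filter.mpr ⟨Finset.mem_filter.mpr ⟨Finset.mem_univ _, ?_⟩, ?_⟩
  · simp only [Finset.sum_const, Finset.card_univ, Fintype.card_fin, nsmul_eq_mul, mul_one]
    exact (ZMod.natCast_eq_one_iff_odd).mpr hn
  · simp only [Finset.sum_const, nsmul_eq_mul, mul_one]
    exact (ZMod.natCast_eq_one_iff_odd).mpr hodd

lemma Tsep_card {n : ℕ} (a b : Fin n) (hab : a ≠ b) : (Tsep a b).card = 3 := by
  classical
  unfold Tsep
  rw [Finset.card_insert_of_notMem, Finset.card_insert_of_notMem, Finset.card_singleton]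
  · rw [Finset.mem_singleton]
    intro h
    have := congrFun h b
    simp [Pi.single_eq_of_ne hab.symm] at this
  · rw [Finset.mem_insert, Finset.mem_singleton, not_or]
    constructor
    · intro h
      have := congrFun h a
      simp [Pi.single_eq_of_ne hab] at this
    · intro h
      have := congrFun h a
      simp [Pi.single_eq_of_ne hab] at this

lemma Tsep_sum {n : ℕ} (hn : Odd n) (a b : Fin n) : ∀ r ∈ Tsep a b, ∑ v, r v = 1 := by
  classical
  intro r hr
  unfold Tsep at hr
  simp only [Finset.mem_insert, Finset.mem_singleton] at hr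
  rcases hr with h | h | h
  · subst h; simp
  · subst h; simp
  · subst h
    simp only [Pi.add_apply, Finset.sum_add_distrib, Finset.sum_pi_single', Finset.mem_univ,
        if_true, Finset.sum_const, Finset.card_univ, Fintype.card_fin, nsmul_eq_mul, mul_one]
    rw [(ZMod.natCast_eq_one_iff_odd).mpr hn]
    decide

lemma Tsep_filter {n : ℕ} (a b : Fin n) (B : Finset (Fin n)) (hodd : Odd B.card)
    (hB : ¬ (a ∈ B ∧ b ∈ B)) :
    ((Tsep a b).filter (fun r => ∑ v ∈ B, r v = 1)).card ≤ 1 := by
  classical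
  have hc : ((B.card : ℕ) : ZMod 2) = 1 := (ZMod.natCast_eq_one_iff_odd).mpr hodd
  have ea : ∑ v ∈ B, (Pi.single a 1 : Fin n → ZMod 2) v = if a ∈ B then 1 else 0 := by
    simp
  have eb : ∑ v ∈ B, (Pi.single b 1 : Fin n → ZMod 2) v = if b ∈ B then 1 else 0 := by
    simp
  have ec : ∑ v ∈ B, ((fun _ => 1) + Pi.single a 1 + Pi.single b 1 : Fin n → ZMod 2) v
      = 1 + (if a ∈ B then 1 else 0) + (if b ∈ B then 1 else 0) := by
    simp only [Pi.add_apply, Finset.sum_add_distrib, ea, eb, Finset.sum_const, nsmul_eq_mul,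
      mul_one, hc]
  have h01 : ¬ ((0 : ZMod 2) = 1) := by decide
  have h11 : (1 : ZMod 2) + 1 + 0 = 0 := by decide
  have h11' : (1 : ZMod 2) + 0 + 1 = 0 := by decide
  rw [Finset.card_le_one]
  intro r hr s hs
  unfold Tsep at hr hs
  simp only [Finset.mem_filter, Finset.mem_insert, Finset.mem_singleton] at hr hs
  by_cases hA : a ∈ B
  · have hBb : b ∉ B := fun h => hB ⟨hA, h⟩
    simp only [hA, hBb, if_true, if_false, h11] at ea eb ec
    have hone : ∀ t : Fin n → ZMod 2, ((t = Pi.single a 1 ∨ t = Pi.single b 1 ∨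
        t = (fun _ => 1) + Pi.single a 1 + Pi.single b 1) ∧ ∑ v ∈ B, t v = 1) →
        t = Pi.single a 1 := by
      rintro t ⟨h | h | h, ht⟩
      · exact h
      · subst h; rw [eb] at ht; exact absurd ht h01
      · subst h; rw [ec] at ht; exact absurd ht h01
    rw [hone r hr, hone s hs]
  · by_cases hBb : b ∈ B
    · simp only [hA, hBb, if_true, if_false, h11'] at ea eb ec
      have hone : ∀ t : Fin n → ZMod 2, ((t = Pi.single a 1 ∨ t = Pi.single b 1 ∨
          t = (fun _ => 1) + Pi.single a 1 + Pi.single b 1) ∧ ∑ v ∈ B, t v = 1) →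
          t = Pi.single b 1 := by
        rintro t ⟨h | h | h, ht⟩
        · subst h; rw [ea] at ht; exact absurd ht h01
        · exact h
        · subst h; rw [ec] at ht; exact absurd ht h01
      rw [hone r hr, hone s hs]
    · simp only [hA, hBb, if_false] at ea eb ec
      have hone : ∀ t : Fin n → ZMod 2, ((t = Pi.single a 1 ∨ t = Pi.single b 1 ∨
          t = (fun _ => 1) + Pi.single a 1 + Pi.single b 1) ∧ ∑ v ∈ B, t v = 1) →
          t = (fun _ => 1) + Pi.single a 1 + Pi.single b 1 := by
        rintro t ⟨h | h | h, ht⟩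
        · subst h; rw [ea] at ht; exact absurd ht h01
        · subst h; rw [eb] at ht; exact absurd ht h01
        · exact h
      rw [hone r hr, hone s hs]

/-- Main theorem on pairs. -/
theorem pairs {n d N : ℕ} (hn : Odd n) (hn3 : 3 ≤ n) (P : Fin N → Fin d → Finset (Fin n))
    (hP : ∀ j i, Odd (P j i).card ∧ P j i ≠ univ)
    (hcov : ∀ x : Fin d → Fin n, Odd (univ.filter (fun j => ∀ i, x i ∈ P j i)).card)
    (S : Finset (Fin d)) (a b : Fin d → Fin n) (hab : ∀ i ∈ S, a i ≠ b i) :
    3 ^ S.card * (2 ^ (n - 1) - 1) ^ (d - S.card) ≤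
      (2 ^ (n - 2) - 1) ^ (d - S.card) *
        ∑ j, 3 ^ (S.filter (fun i => a i ∈ P j i ∧ b i ∈ P j i)).card := by
  classical
  let T : Fin d → Finset (Fin n → ZMod 2) :=
    fun i => if i ∈ S then Tsep (a i) (b i) else Tgen n
  let c : Fin N → Fin d → ℕ := fun j i =>
    if i ∈ S then (if a i ∈ P j i ∧ b i ∈ P j i then 3 else 1) else 2 ^ (n - 2) - 1
  have hT : ∀ i, ∀ r ∈ T i, ∑ v, r v = 1 := by
    intro i r hr
    by_cases hi : i ∈ S
    · simp only [T, hi, if_true] at hr
      exact Tsep_sum hn _ _ r hr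
    · simp only [T, hi, if_false] at hr
      exact (Finset.mem_filter.mp (Finset.mem_of_mem_erase hr)).2
  have hc : ∀ j i, ((T i).filter (fun r => ∑ v ∈ P j i, r v = 1)).card ≤ c j i := by
    intro j i
    by_cases hi : i ∈ S
    · simp only [T, c, hi, if_true]
      split_ifs with h
      · exact (Finset.card_filter_le _ _).trans (Tsep_card _ _ (hab i hi)).le
      · exact Tsep_filter _ _ _ (hP j i).1 h
    · simp only [T, c, hi, if_false]
      exact (Tgen_filter hn3 hn _ (hP j i).1 (hP j i).2).le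
  have h := weighting P hcov T hT c hc
  have hcompl : (univ.filter (fun i => ¬ i ∈ S)).card = d - S.card := by
    have h2 : univ.filter (fun i => ¬ i ∈ S) = Sᶜ := by ext i; simp
    rw [h2, Finset.card_compl, Fintype.card_fin]
  have h1 : ∏ i, (T i).card = 3 ^ S.card * (2 ^ (n - 1) - 1) ^ (d - S.card) := by
    have : ∀ i, (T i).card = if i ∈ S then 3 else 2 ^ (n - 1) - 1 := by
      intro i
      by_cases hi : i ∈ S
      · simp only [T, hi, if_true]; exact Tsep_card _ _ (hab i hi)
      · simp only [T, hi, if_false]; exact Tgen_card hn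
    rw [Finset.prod_congr rfl (fun i _ => this i), Finset.prod_ite, Finset.prod_const,
      Finset.prod_const, hcompl]
    simp
  have h2 : ∀ j, ∏ i, c j i = (2 ^ (n - 2) - 1) ^ (d - S.card) *
      3 ^ (S.filter (fun i => a i ∈ P j i ∧ b i ∈ P j i)).card := by
    intro j
    simp only [c]
    rw [Finset.prod_ite, Finset.prod_const, hcompl, mul_comm]
    congr 1
    rw [Finset.prod_ite, Finset.prod_const, Finset.prod_const_one, mul_one]
    congr 2
    ext i
    simp
  rw [h1, Finset.sum_congr rfl (fun j _ => h2 j), ← Finset.mul_sum] at h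
  exact h

end Pool.Agent.H321R2.OB
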